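import Pool.Agent.W751.CV.Stm

set_option autoImplicit false

open Polynomial Filter Topology MeasureTheory

namespace Pool.Agent.W15.CV

open Pool.Agent.W751.CD Pool.Agent.W751.CV

theorem evalP {N : ℕ} (z : Fin N → ℂ) (w : ℂ) : (P z).eval w = ∏ i, (w - z i) := by
  unfold P
  rw [Polynomial.eval_prod]
  simp

theorem natDeg {N : ℕ} (z : Fin N → ℂ) : (P z).natDegree ≤ N := by
  unfold P
  refine (Polynomial.natDegree_prod_le _ _).trans ?_
  refine (Finset.sum_le_sum (g := fun _ => 1) fun i _ => ?_).trans ?_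
  · exact (Polynomial.natDegree_X_sub_C_le _)
  · simp

theorem measI (ρ : ℝ) (N : ℕ) :
    Measurable (fun z : Fin N → ℂ => ∫⁻ w, ENNReal.ofReal (‖(P z).eval w‖ ^ 2) ∂(mD ρ)) := by
  have hc : Continuous (fun q : (Fin N → ℂ) × ℂ => ENNReal.ofReal (‖(P q.1).eval q.2‖ ^ 2)) := by
    simp only [evalP]
    refine ENNReal.continuous_ofReal.comp ?_
    refine (continuous_norm.comp ?_).pow 2
    refine continuous_finsetProd _ fun i _ => ?_
    exact continuous_snd.sub ((continuous_apply i).comp continuous_fst)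
  have hS : SFinite (mD ρ) := by unfold mD; infer_instance
  exact hc.measurable.lintegral_prod_right'

theorem cb : S_CB := by
  intro hL2 hSUP ρ r η N hρ hr hη
  have hZ : 0 ≤ ZN ρ N := by
    unfold ZN
    refine mul_nonneg (Nat.cast_nonneg _) (Finset.prod_nonneg fun k _ => ?_)
    unfold hk
    positivity
  set I : (Fin N → ℂ) → ENNReal := fun z => ∫⁻ w, ENNReal.ofReal (‖(P z).eval w‖ ^ 2) ∂(mD ρ)
    with hI
  set K : ℝ := ((N : ℝ) + 1) ^ 2 * (r / ρ) ^ (2 * N) / (Real.pi * ρ ^ 2) with hK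
  have hr0 : 0 < r := hρ.trans_le hr
  have hK0 : 0 ≤ K := by positivity
  have hsub : {z : Fin N → ℂ | ∃ w : ℂ, ‖w‖ ≤ r ∧ η < ‖(P z).eval w‖} ⊆
      {z | ENNReal.ofReal (η ^ 2) ≤ ENNReal.ofReal K * I z} := by
    rintro z ⟨w, hw, hlt⟩
    refine le_trans (ENNReal.ofReal_le_ofReal ?_) (hSUP ρ r N (P z) hρ hr (natDeg z) w hw)
    exact pow_le_pow_left₀ hη.le hlt.le 2
  have hmark := mul_meas_ge_le_lintegral (μ := mu ρ N) ((measI ρ N).const_mul (ENNReal.ofReal K))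
    (ENNReal.ofReal (η ^ 2))
  have hint : ∫⁻ z, ENNReal.ofReal K * I z ∂(mu ρ N) =
      ENNReal.ofReal ((N + 1) ^ 2 * r ^ (2 * N) * ZN ρ N) := by
    rw [lintegral_const_mul _ (measI ρ N), hL2 ρ N hρ, ← ENNReal.ofReal_mul hK0]
    congr 1
    rw [hK]
    have hpi := Real.pi_pos.ne'
    have hρ' := hρ.ne'
    rw [div_pow]
    field_simp
    ring
  have hη2 : (0 : ℝ) < η ^ 2 := by positivity
  have hη0 : ENNReal.ofReal (η ^ 2) ≠ 0 := by
    rw [Ne, ENNReal.ofReal_eq_zero, not_le]; exact hη2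
  refine (measure_mono hsub).trans ?_
  have h1 : (mu ρ N) {z | ENNReal.ofReal (η ^ 2) ≤ ENNReal.ofReal K * I z} ≤
      ENNReal.ofReal ((N + 1) ^ 2 * r ^ (2 * N) * ZN ρ N) / ENNReal.ofReal (η ^ 2) := by
    rw [ENNReal.le_div_iff_mul_le (Or.inl hη0) (Or.inl ENNReal.ofReal_ne_top), mul_comm]
    exact hmark.trans hint.le
  refine h1.trans (le_of_eq ?_)
  rw [← ENNReal.ofReal_div_of_pos hη2]
  congr 1
  ring

end Pool.Agent.W15.CV
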